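import Pool.Agent.Lib.MP_5f81cf_ag.FAll1
import Pool.Agent.Lib.MP_99f32e_ag.Defs

/-! Top forms and places under isomorphisms of function fields. -/

namespace Pool.Agent.Lib.PL87

open Pool.Agent.Lib.MP_e06174_ag Pool.Agent.Lib.MP_5f81cf_ag Pool.Agent.Lib.MP_5f81cf_ag.Full
open Pool.Agent.Lib.MP_99f32e_ag

section top

variable {k K : Type} [Field k] [Field K]

lemma top_iff {φ : k →+* K} [inst : Algebra k K] (h : algebraMap k K = φ) {n : ℕ}
    (J : (Fin n → K) → K) : IsTopFormCoeff φ J ↔ ∃ b : Module.Basis (Fin n) K Ω[K⁄k],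
      ∀ a, J a = b.det fun i => KaehlerDifferential.D k K (a i) := by
  obtain rfl : inst = φ.toAlgebra := Algebra.algebra_ext _ _ fun r => by rw [h]; rfl
  rfl

end top

variable {k K K' : Type} [Field k] [Field K] [Algebra k K] [Field K'] [Algebra k K']
  [IsAlgClosed k] {p : ℕ} [Fact p.Prime] [CharP k p] {d : ℕ}

lemma exists_basis {x : Fin d → K} (hx : IsPB p x) : ∃ c : Module.Basis (Fin d) K Ω[K⁄k],
    ∀ a : Fin d → K, (c.det fun i => KaehlerDifferential.D k K (a i)) = jac k x a := by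
  have c1 := car1_all k p
  have hli : LinearIndependent K fun j => KaehlerDifferential.D k K (x j) := by
    rw [Fintype.linearIndependent_iff]
    intro g hg i
    have := congrArg (pd k x i).liftKaehlerDifferential hg
    simpa [c1.pd_x hx] using this
  have hsp : ⊤ ≤ Submodule.span K (Set.range fun j => KaehlerDifferential.D k K (x j)) := by
    rw [← KaehlerDifferential.span_range_derivation, Submodule.span_le]
    rintro _ ⟨g, rfl⟩
    rw [p4_D_eq c1 hx g]
    exact Submodule.sum_mem _ fun j _ => Submodule.smul_mem _ _ (Submodule.subset_span ⟨j, rfl⟩)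
  refine ⟨Module.Basis.mk hli hsp, fun a => ?_⟩
  simp_rw [p4_D_eq c1 hx (a _)]
  have h := (Module.Basis.mk hli hsp).det_self
  rw [Module.Basis.coe_mk] at h
  rw [p4_alt_det, h, smul_eq_mul, mul_one]
  rfl

lemma exists_coeff {x : Fin d → K} (hx : IsPB p x) {n : ℕ} (b : Module.Basis (Fin n) K Ω[K⁄k]) :
    n = d ∧ ∀ b : Module.Basis (Fin d) K Ω[K⁄k], ∃ g : K, g ≠ 0 ∧ ∀ a : Fin d → K,
      (b.det fun i => KaehlerDifferential.D k K (a i)) = g * jac k x a := by
  obtain ⟨c, hc⟩ := exists_basis (k := k) hx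
  refine ⟨by simpa using Fintype.card_congr (b.indexEquiv c), fun b => ?_⟩
  refine ⟨b.det c, (b.isUnit_det c).ne_zero, fun a => ?_⟩
  rw [← hc]
  exact congr($(b.det.eq_smul_basis_det c) _)

lemma exists_basis_coeff {x : Fin (d + 1) → K} (hx : IsPB p x) {g : K} (hg : g ≠ 0) :
    ∃ b : Module.Basis (Fin (d + 1)) K Ω[K⁄k], ∀ a : Fin (d + 1) → K,
      g * jac k x a = b.det fun i => KaehlerDifferential.D k K (a i) := by
  obtain ⟨c, hc⟩ := exists_basis (k := k) hx
  refine ⟨c.unitsSMul (Fin.cons (Units.mk0 g hg)⁻¹ 1), fun a => ?_⟩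
  rw [Module.Basis.det_unitsSMul, ← hc]
  simp [Fin.prod_univ_succ]

lemma exists_jac_ne {x : Fin d → K} (hx : IsPB p x) (O : Type) [CommRing O] [IsDomain O]
    [Algebra O K] [IsFractionRing O K] :
    ∃ a : Fin d → O, jac k x (fun i => algebraMap O K (a i)) ≠ 0 := by
  have c1 := car1_all k p
  have : CharP K p := charP_of_injective_algebraMap (algebraMap k K).injective p
  choose r s hs h using fun i => IsFractionRing.div_surjective (A := O) (x i)
  have hs' (i) : algebraMap O K (s i) ≠ 0 := by simpa using nonZeroDivisors.ne_zero (hs i)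
  have hp : p ≠ 0 := (Fact.out : p.Prime).ne_zero
  have e (i) : algebraMap O K (r i * s i ^ (p - 1)) = algebraMap O K (s i) ^ p * x i := by
    rw [← h, map_mul, map_pow]
    obtain ⟨q, rfl⟩ := Nat.exists_eq_succ_of_ne_zero hp
    have := hs' i
    simp only [Nat.succ_eq_add_one, add_tsub_cancel_right]
    field_simp
    ring
  refine ⟨fun i => r i * s i ^ (p - 1), ?_⟩
  have : jac k x (fun i => algebraMap O K (r i * s i ^ (p - 1))) =
      (Matrix.diagonal fun i => algebraMap O K (s i) ^ p).det := by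
    unfold jac
    congr 1
    ext i j
    simp only [Matrix.of_apply, e, Derivation.leibniz, Derivation.leibniz_pow, c1.pd_x hx,
      Matrix.diagonal_apply, nsmul_eq_mul, CharP.cast_eq_zero, smul_eq_mul]
    split_ifs <;> simp
  rw [this, Matrix.det_diagonal]
  exact Finset.prod_ne_zero_iff.2 fun i _ => pow_ne_zero _ (hs' i)

lemma isLeast_jac [Algebra.EssFiniteType k K] {x : Fin (d + 1) → K} (hx : IsPB p x)
    {E : Place k K} (hE : IsDivisorial (d + 1) E) {g : K} (hg : g ≠ 0) (O : Type) [CommRing O]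
    [Algebra O K] (hO : ∀ f, E.Ge 0 f ↔ f ∈ (algebraMap O K).range) :
    IsLeast {r : ℚ | ∃ (a : Fin (d + 1) → O) (f : K),
      f = g * jac k x (fun i => algebraMap O K (a i)) ∧ f ≠ 0 ∧ r = E.ord f}
      (E.ord g + 1 - lam k x E : ℤ) := by
  have c1 := car1_all k p
  have p1 := pl1_all k p
  have p2 := pl2_all k p
  obtain ⟨L, _, _, ρ, hρ⟩ := p1.exists_res E
  obtain ⟨t, z, hA⟩ := p1.exists_adapt hx hρ hE
  have hJ : jac k x (Fin.cons t z) ≠ 0 := (c1.pb_iff hx).1 (p2.adapt_pb hx hA)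
  constructor
  · have h0 : ∀ i, E.Ge 0 ((Fin.cons t z : Fin (d + 1) → K) i) := fun i => by
      refine Fin.cases ?_ (fun j => ?_) i
      · exact Place.ge_of_le (by simp [hA.ord])
      · simpa using hA.ge j
    choose a ha using fun i => (hO _).1 (h0 i)
    have ha' : (fun i => algebraMap O K (a i)) = Fin.cons t z := funext ha
    refine ⟨a, _, rfl, by rw [ha']; exact mul_ne_zero hg hJ, ?_⟩
    rw [ha', E.ord_mul hg hJ, p2.lam_eq hx hA]
    push_cast
    ring
  · rintro _ ⟨a, _, rfl, h0, rfl⟩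
    have h1 := ((p2.jac_ge hx hA _).1 fun i => (hO _).2 ⟨a i, rfl⟩).le (right_ne_zero_of_mul h0)
    rw [E.ord_mul hg (right_ne_zero_of_mul h0)]
    exact_mod_cast (by omega)

lemma formOrd_inv [Algebra.EssFiniteType k K] {x : Fin 3 → K} (hx : IsPB p x)
    {E : Place k K} (hE : IsDivisorial 3 E) {g : K} (hg : g ≠ 0) :
    formOrd 3 E (g⁻¹ • vol k x) = lam k x E - 1 - E.ord g := by
  have p1 := pl1_all k p
  obtain ⟨L, _, _, ρ, hρ⟩ := p1.exists_res E
  obtain ⟨t, z, hA⟩ := p1.exists_adapt hx hρ hE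
  rw [(pl4_all k p).formOrd_eq hx hA _ (inv_ne_zero hg), Place.ord_inv]
  ring

lemma vol_ne {x : Fin 3 → K} (hx : IsPB p x) {g : K} (hg : g ≠ 0) : g⁻¹ • vol k x ≠ 0 := by
  obtain ⟨φ, hφ⟩ := p4_exists_phi (k := k) x
  intro h
  have := congrArg φ h
  rw [map_smul, hφ, (car1_all k p).jac_self hx] at this
  simp [hg] at this

omit [IsAlgClosed k] [CharP k p] [Fact p.Prime] in
lemma isPB_map (e : K ≃ₐ[k] K') {x : Fin d → K} (hx : IsPB p x) : IsPB p fun i => e (x i) := by
  intro f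
  obtain ⟨c, hc, hu⟩ := hx (e.symm f)
  refine ⟨fun α => e (c α), by simpa [pmon] using congrArg e hc, fun c' hc' => ?_⟩
  have := hu (fun α => e.symm (c' α)) (e.injective (by simpa [pmon] using hc'))
  funext α
  rw [← this]
  simp

lemma jac_map (e : K ≃ₐ[k] K') {x : Fin d → K} (hx : IsPB p x) (a : Fin d → K) :
    jac k (fun i => e (x i)) (fun i => e (a i)) = e (jac k x a) := by
  unfold jac
  rw [AlgEquiv.map_det]
  congr 1
  ext i j
  exact (car2_all k p).pd_map (e : K →ₐ[k] K') hx (isPB_map e hx) j (a i)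

lemma lam_map (e : K ≃ₐ[k] K') {x : Fin d → K} (hx : IsPB p x) {E : Place k K} {E' : Place k K'}
    (h : ∀ f, E'.ord (e f) = E.ord f) : lam k (fun i => e (x i)) E' = lam k x E := by
  have hge (f) : E'.Ge 0 (e f) ↔ E.Ge 0 f := by
    rw [Place.ge_iff', Place.ge_iff', h, map_eq_zero]
  unfold lam
  congr 2
  ext n
  constructor
  · rintro ⟨a, h1, h2, h3⟩
    obtain ⟨a, rfl⟩ : ∃ b : Fin d → K, a = fun i => e (b i) :=
      ⟨fun i => e.symm (a i), by simp⟩
    rw [jac_map e hx] at h2 h3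
    exact ⟨a, fun i => (hge _).1 (h1 i), by simpa using h2, by rw [h3, h]⟩
  · rintro ⟨a, h1, h2, h3⟩
    exact ⟨fun i => e (a i), fun i => (hge _).2 (h1 i), by simpa [jac_map e hx] using h2,
      by rw [jac_map e hx, h, h3]⟩

omit [IsAlgClosed k] in
lemma exists_comap (e : K ≃ₐ[k] K') (E' : Place k K') :
    ∃ E : Place k K, ∀ f, E'.ord (e f) = E.ord f := by
  refine ⟨⟨E'.v.comap (e : K →+* K'), fun c hc => by simpa using E'.triv c hc, ?_⟩, fun _ => rfl⟩
  obtain ⟨π, hπ⟩ := E'.surj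
  exact ⟨e.symm π, by simpa using hπ⟩

end Pool.Agent.Lib.PL87
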