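import Pool.Agent.Lib.MP_99f32e_ag.Defs

/-! Purely log terminal pairs, through proper birational morphisms from normal varieties.
Divisors are functions on points, a prime divisor being its generic point. -/

open AlgebraicGeometry CategoryTheory Order

namespace Pool.Agent.Lib.PL87

open Pool.Agent.Lib.MP_99f32e_ag

/-- `X` is a normal variety over `k`. -/
def IsNormalVariety {k : Type} [Field k] {X : Scheme.{0}} (π : X ⟶ Spec (.of k)) : Prop :=
  IsIntegral X ∧ LocallyOfFiniteType π ∧ QuasiCompact π ∧ IsSeparated π ∧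
    ∀ x : X, IsIntegrallyClosed (X.presheaf.stalk x)

/-- `y` is the generic point of an `f`-exceptional prime divisor. -/
def IsExceptional {Y X : Scheme.{0}} (f : Y ⟶ X) (y : Y) : Prop :=
  coheight y = 1 ∧ 2 ≤ coheight (f y)

/-- The strict transform of a divisor under a birational morphism. -/
noncomputable def strictTransform {Y X : Scheme.{0}} (f : Y ⟶ X) (Δ : X → ℚ) (y : Y) : ℚ :=
  if coheight y = 1 ∧ coheight (f y) = 1 then Δ (f y) else 0

/-- Some positive multiple of `D` is locally the divisor of a rational function. -/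
def IsQCartier {X : Scheme.{0}} [IsIntegral X] [IsLocallyNoetherian X] (D : X → ℚ) : Prop :=
  ∃ m : ℕ, 0 < m ∧ ∀ x : X, ∃ (U : X.Opens) (h : X.functionField), x ∈ U ∧ h ≠ 0 ∧
    ∀ z ∈ U, m * D z = X.ord h z

/-- `(X, Δ)` is a purely log terminal pair. -/
def IsPlt {k : Type} [Field k] {X : Scheme.{0}} [IsIntegral X] [IsLocallyNoetherian X]
    (π : X ⟶ Spec (.of k)) (Δ : X → ℚ) : Prop :=
  IsNormalVariety π ∧ (Function.support Δ).Finite ∧ (∀ x, Δ x ≠ 0 → coheight x = 1) ∧
  (∀ x, 0 ≤ Δ x ∧ Δ x ≤ 1) ∧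
  ∃ KX : X → ℚ, IsCanonicalDiv π KX ∧ IsQCartier (KX + Δ) ∧
    ∀ (Y : Scheme.{0}) [IsIntegral Y] [IsLocallyNoetherian Y] (f : Y ⟶ X) [IsDominant f],
      IsProper f → IsIso (pullFun f) → IsNormalVariety (f ≫ π) →
      ∀ KY P a : Y → ℚ, IsCanonicalDiv (f ≫ π) KY → IsPullbackDiv f (KX + Δ) P →
        (∀ y, a y ≠ 0 → IsExceptional f y) → KY + strictTransform f Δ = P + a →
        ∀ y, IsExceptional f y → -1 < a y

end Pool.Agent.Lib.PL87
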