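import Pool.Agent.Lib.PL87.Alg
import Pool.Agent.Lib.MP_5f81cf_ag.FBridge
import Pool.Agent.Lib.MP_99f32e_ag.Glue

/-! Prime divisors of a normal variety as places of its function field. -/

namespace Pool.Agent.Lib.PL87

open Pool.Agent.Lib.MP_e06174_ag Pool.Agent.Lib.MP_5f81cf_ag Pool.Agent.Lib.MP_5f81cf_ag.Full
open Pool.Agent.Lib.MP_99f32e_ag AlgebraicGeometry CategoryTheory Order IsLocalRing

variable {k : Type} [Field k] {X : Scheme.{0}} [IsIntegral X]

/-- The constants in the function field. -/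
noncomputable def const (π : X ⟶ Spec (.of k)) : k →+* X.functionField :=
  ((Scheme.ΓSpecIso (.of k)).inv ≫ π.appTop ≫
    X.presheaf.germ ⊤ (genericPoint X) trivial).hom

/-- The rational function `g` is regular at `x`. -/
abbrev Reg (x : X) (g : X.functionField) : Prop :=
  g ∈ (algebraMap (X.presheaf.stalk x) X.functionField).range

lemma reg_germ {U : X.Opens} (hU : genericPoint X ∈ U) (s : Γ(X, U)) {x : X} (hx : x ∈ U) :
    Reg x (X.presheaf.germ U _ hU s) := ⟨_, (germ_mem_stalk hU s hx).symm⟩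

lemma reg_const (π : X ⟶ Spec (.of k)) (x : X) (c : k) : Reg x (const π c) :=
  reg_germ (U := ⊤) trivial _ trivial

lemma pullFun_const {Y : Scheme.{0}} [IsIntegral Y] (f : Y ⟶ X) [IsDominant f]
    (π : X ⟶ Spec (.of k)) (c : k) : pullFun f (const π c) = const (f ≫ π) c :=
  congr($(pullFun_germ f ⊤ trivial trivial) (π.appTop ((Scheme.ΓSpecIso (.of k)).inv c)))

omit [IsIntegral X] in
lemma height_primeIdealOf {U : X.Opens} (hU : IsAffineOpen U) (x : U) :
    (hU.primeIdealOf x).asIdeal.height = coheight x.1 := by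
  rw [idealHeight_eq_coheight, ← coheight_eq_of_isOpenImmersion hU.fromSpec]
  exact congrArg coheight (hU.fromSpec_primeIdealOf x)

omit [IsIntegral X] in
lemma exists_point {U : X.Opens} (hU : IsAffineOpen U) (q : Ideal Γ(X, U)) [hq : q.IsPrime] :
    ∃ x : U, (hU.primeIdealOf x).asIdeal = q :=
  ⟨hU.isoSpec.inv ⟨q, hq⟩, by simp [IsAffineOpen.primeIdealOf]⟩

omit [IsIntegral X] in
lemma specializes_of_le {U : X.Opens} (hU : IsAffineOpen U) {x y : U}
    (h : (hU.primeIdealOf x).asIdeal ≤ (hU.primeIdealOf y).asIdeal) : x.1 ⤳ y.1 := by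
  have := ((PrimeSpectrum.le_iff_specializes _ _).mp h).map hU.fromSpec.continuous
  rwa [hU.fromSpec_primeIdealOf, hU.fromSpec_primeIdealOf] at this

lemma centre_iff [Algebra k X.functionField] {U : X.Opens} (hU : IsAffineOpen U) [Nonempty U]
    (x : U) (E : Place k X.functionField) : HasCentre E (hU.primeIdealOf x).asIdeal ↔
      HasCentre E (maximalIdeal (X.presheaf.stalk x.1)) := by
  let _ := TopCat.Presheaf.algebra_section_stalk X.presheaf x
  have := hU.isLocalization_stalk x
  have := functionField_isScalarTower X U x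
  have e := IsLocalization.AtPrime.under_maximalIdeal (X.presheaf.stalk x.1)
    (hU.primeIdealOf x).asIdeal
  refine ⟨fun h => ?_, fun h => e ▸ centre_comap h⟩
  obtain ⟨q, hq, -⟩ := centre_map (O := X.presheaf.stalk x.1) _ h le_rfl
  have h1 : q.under Γ(X, U) = _ := ((centre_comap hq).unique h).trans e.symm
  rwa [← IsLocalization.map_under (hU.primeIdealOf x).asIdeal.primeCompl _ (maximalIdeal _), ← h1,
    IsLocalization.map_under (hU.primeIdealOf x).asIdeal.primeCompl]

lemma exists_chart (π : X ⟶ Spec (.of k)) [LocallyOfFiniteType π] [Algebra k X.functionField]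
    (hs : algebraMap k X.functionField = const π) {U : X.Opens} (hU : IsAffineOpen U)
    [Nonempty U] : ∃ _ : Algebra k Γ(X, U), Algebra.FiniteType k Γ(X, U) ∧
      IsScalarTower k Γ(X, U) X.functionField := by
  let φ : CommRingCat.of k ⟶ Γ(X, U) := (Scheme.ΓSpecIso (.of k)).inv ≫ π.appLE ⊤ U le_top
  let : Algebra k Γ(X, U) := φ.hom.toAlgebra
  refine ⟨this, ?_, ?_⟩
  · have h := π.finiteType_appLE (isAffineOpen_top _) hU (U := ⊤) le_top
    exact h.comp (RingHom.FiniteType.of_surjective _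
      (Scheme.ΓSpecIso (.of k)).symm.commRingCatIsoToRingEquiv.surjective)
  · refine IsScalarTower.of_algebraMap_eq' ?_
    rw [hs]
    change _ = (φ ≫ X.germToFunctionField U).hom
    unfold const
    congr 1
    simp only [φ, Scheme.Hom.appLE, Category.assoc, TopCat.Presheaf.germ_res]
    rfl

lemma ess (π : X ⟶ Spec (.of k)) [LocallyOfFiniteType π] [Algebra k X.functionField]
    (hs : algebraMap k X.functionField = const π) : Algebra.EssFiniteType k X.functionField := by
  obtain ⟨U, hU, hx, -⟩ := exists_isAffineOpen_mem_and_subset (x := genericPoint X) (U := ⊤) trivial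
  have : Nonempty U := ⟨⟨_, hx⟩⟩
  obtain ⟨_, _, _⟩ := exists_chart π hs hU
  have := functionField_isFractionRing_of_isAffineOpen X U hU
  have := Algebra.EssFiniteType.of_isLocalization X.functionField (nonZeroDivisors Γ(X, U))
  exact Algebra.EssFiniteType.comp k Γ(X, U) _

lemma normal_chart (hn : ∀ x : X, IsIntegrallyClosed (X.presheaf.stalk x)) {U : X.Opens}
    (hU : IsAffineOpen U) [Nonempty U] : IsIntegrallyClosed Γ(X, U) :=
  IsIntegrallyClosed.of_localization_maximal fun m _ _ => by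
    obtain ⟨y, rfl⟩ := exists_point hU m
    let _ := TopCat.Presheaf.algebra_section_stalk X.presheaf y
    have := hU.isLocalization_stalk y
    have := hn y
    exact .of_equiv (IsLocalization.algEquiv (hU.primeIdealOf y).asIdeal.primeCompl
      (X.presheaf.stalk y.1) _).toRingEquiv

variable [IsLocallyNoetherian X]

lemma dvr_stalk {x : X} (hn : IsIntegrallyClosed (X.presheaf.stalk x)) (hx : coheight x = 1) :
    IsDiscreteValuationRing (X.presheaf.stalk x) := by
  have h1 : Ring.KrullDimLE 1 (X.presheaf.stalk x) := krullDimLE_of_coheight_le hx.le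
  have hF : ¬ IsField (X.presheaf.stalk x) := fun h => by
    have h2 := ringKrullDim_eq_zero_of_isField h
    rw [ringKrullDim_stalk_eq_coheight, hx] at h2
    simp at h2
  have h2 : IsIntegrallyClosed (X.presheaf.stalk x) ∧
      ∃! P : Ideal (X.presheaf.stalk x), P ≠ ⊥ ∧ P.IsPrime := ⟨hn, maximalIdeal _,
    ⟨isField_iff_maximalIdeal_eq.not.1 hF, inferInstance⟩, fun P hP => eq_maximalIdeal
      (Ring.krullDimLE_one_iff_of_isPrime_bot.1 h1 P hP.1 hP.2)⟩
  exact ((IsDiscreteValuationRing.TFAE _ hF).out 3 0).1 h2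

variable [Algebra k X.functionField]

/-- `E` is the place of the point `x`. -/
def IsPl (E : Place k X.functionField) (x : X) : Prop := ∀ g, E.ord g = X.ord g x

lemma exists_isPl {x : X} (hn : IsIntegrallyClosed (X.presheaf.stalk x)) (hx : coheight x = 1)
    (hc : ∀ c : k, Reg x (algebraMap k X.functionField c)) :
    ∃ E : Place k X.functionField, IsPl E x := by
  have := dvr_stalk hn hx
  refine ⟨Place.ofOrd (fun g => X.ord g x) (fun a b ha hb => Scheme.ord_mul ha hb)
    (fun a b _ _ h => Scheme.ord_add h) (fun c hc0 => ?_) ?_, fun g => ?_⟩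
  · have h1 := ord_nonneg_of_mem (hc c)
    have h2 := ord_nonneg_of_mem (hc c⁻¹)
    rw [map_inv₀, ord_inv' (by simpa using hc0)] at h2
    omega
  · obtain ⟨ϖ, hϖ⟩ := IsDiscreteValuationRing.exists_irreducible (X.presheaf.stalk x)
    have h0 : algebraMap _ X.functionField ϖ ≠ 0 := by simpa using hϖ.ne_zero
    exact ⟨_, h0, (Scheme.ord_eq_iff hx h0).2 (Ring.ordFrac_irreducible hϖ)⟩
  · by_cases hg : g = 0
    · simp [hg]
    · exact Place.ofOrd_ord _ _ _ _ _ hg

variable {E : Place k X.functionField} {x : X}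

lemma IsPl.ge_iff (h : IsPl E x) (hn : IsIntegrallyClosed (X.presheaf.stalk x))
    (hx : coheight x = 1) (g : X.functionField) : E.Ge 0 g ↔ Reg x g := by
  have := dvr_stalk hn hx
  refine ⟨fun hg => mem_of_ord_nonneg_of_dvr ?_, fun hg => Place.ge_of_le ?_⟩
  · rw [← h]
    rcases Place.ge_iff'.1 hg with rfl | hg
    · simp
    · exact hg
  · rw [h]
    exact ord_nonneg_of_mem hg

lemma IsPl.centre (h : IsPl E x) (hn : IsIntegrallyClosed (X.presheaf.stalk x))
    (hx : coheight x = 1) : HasCentre E (maximalIdeal (X.presheaf.stalk x)) := fun r => by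
  refine ⟨(h.ge_iff hn hx _).2 ⟨r, rfl⟩, ?_⟩
  have h0 := (h.ge_iff hn hx _).2 ⟨r, rfl⟩
  rw [mem_maximalIdeal, mem_nonunits_iff, ← not_iff_not, not_not, Place.not_ge_iff]
  constructor
  · intro hu
    refine ⟨(hu.map _).ne_zero, ?_⟩
    rw [h, ord_of_isUnit_stalk hu]
    exact one_pos
  · rintro ⟨h1, h2⟩
    obtain ⟨s, hs⟩ := (h.ge_iff hn hx (algebraMap _ X.functionField r)⁻¹).1
      (Place.ge_of_le (by rw [Place.ord_inv]; omega))
    refine IsUnit.of_mul_eq_one s (IsFractionRing.injective _ X.functionField ?_)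
    rw [map_mul, hs, mul_inv_cancel₀ h1, map_one]

lemma IsPl.eq (h : IsPl E x) (hn : IsIntegrallyClosed (X.presheaf.stalk x))
    (hx : coheight x = 1) {F : Place k X.functionField} (hF : ∀ g, Reg x g → F.Ge 0 g) : E = F :=
  Place.ext_of_ge fun g hg => hF g ((h.ge_iff hn hx g).1 hg)

variable [IsAlgClosed k] (p : ℕ) [Fact p.Prime] [CharP k p] (π : X ⟶ Spec (.of k))
  [LocallyOfFiniteType π] (hs : algebraMap k X.functionField = const π)
  (hn : ∀ x : X, IsIntegrallyClosed (X.presheaf.stalk x))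

include p hs hn in
lemma IsPl.div (h : IsPl E x) (hx : coheight x = 1) {d : ℕ}
    (hd : Algebra.trdeg k X.functionField = d) : IsDivisorial d E := by
  obtain ⟨U, hU, hxU, -⟩ := exists_isAffineOpen_mem_and_subset (x := x) (U := ⊤) trivial
  have : Nonempty U := ⟨⟨_, hxU⟩⟩
  obtain ⟨_, _, _⟩ := exists_chart π hs hU
  have := functionField_isFractionRing_of_isAffineOpen X U hU
  exact (ca2_all k p).div_of_height hd ((centre_iff hU ⟨x, hxU⟩ E).2 (h.centre (hn x) hx))
    ((height_primeIdealOf hU ⟨x, hxU⟩).trans hx)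

variable {p} {u : Fin 3 → X.functionField} (hu : IsPB p u)

include hs hn hu in
lemma IsPl.isLeast (h : IsPl E x) (hx : coheight x = 1) {g : X.functionField} (hg : g ≠ 0) :
    IsLeast {r : ℚ | ∃ (a : Fin 3 → X.presheaf.stalk x) (f : X.functionField),
      f = g * jac k u (fun i => algebraMap _ _ (a i)) ∧ f ≠ 0 ∧ r = X.ord f x}
      (E.ord g + 1 - lam k u E : ℤ) := by
  have := ess π hs
  simp only [← h _]
  exact isLeast_jac hu (h.div p π hs hn hx ((car2_all k p).trdeg_eq hu)) hg _ (h.ge_iff (hn x) hx)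

include hs hn hu in
lemma canon_eq {D : X → ℚ} (hD : IsCanonicalDiv π D) : ∃ g : X.functionField, g ≠ 0 ∧
    ∀ (x : X) (E : Place k X.functionField), coheight x = 1 → IsPl E x →
      D x = (lam k u E - 1 - E.ord g : ℤ) := by
  obtain ⟨n, J, hJ, hD⟩ := hD
  obtain ⟨b, hb⟩ := (top_iff hs J).1 hJ
  obtain ⟨rfl, h⟩ := exists_coeff hu b
  obtain ⟨g, hg, h⟩ := h b
  refine ⟨g, hg, fun x E hx hE => ?_⟩
  have h1 := hD x
  simp only [hb, h] at h1
  have h2 := h1.unique (hE.isLeast π hs hn hu hx hg)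
  push_cast at h2 ⊢
  linarith

include hs hn hu in
lemma exists_canon {g : X.functionField} (hg : g ≠ 0) : ∃ D : X → ℚ, IsCanonicalDiv π D ∧
    (∀ x, coheight x ≠ 1 → D x = 0) ∧
    ∀ (x : X) (E : Place k X.functionField), coheight x = 1 → IsPl E x →
      D x = (lam k u E - 1 - E.ord g : ℤ) := by
  have h0 (x : X) (hx : coheight x ≠ 1) : IsLeast {r : ℚ | ∃ (a : Fin 3 → X.presheaf.stalk x)
      (f : X.functionField), f = g * jac k u (fun i => algebraMap _ _ (a i)) ∧ f ≠ 0 ∧
        r = X.ord f x} 0 := by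
    obtain ⟨a, ha⟩ := exists_jac_ne (k := k) hu (X.presheaf.stalk x)
    refine ⟨⟨a, _, rfl, mul_ne_zero hg ha, by simp [hx]⟩, ?_⟩
    rintro _ ⟨a, f, -, -, rfl⟩
    simp [hx]
  have H (x : X) : ∃ s : ℚ, IsLeast {r : ℚ | ∃ (a : Fin 3 → X.presheaf.stalk x)
      (f : X.functionField), f = g * jac k u (fun i => algebraMap _ _ (a i)) ∧ f ≠ 0 ∧
        r = X.ord f x} (-s) := by
    by_cases hx : coheight x = 1
    · obtain ⟨E, hE⟩ := exists_isPl (k := k) (hn x) hx fun c => hs ▸ reg_const π x c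
      exact ⟨_, by rw [neg_neg]; exact hE.isLeast π hs hn hu hx hg⟩
    · exact ⟨0, by rw [neg_zero]; exact h0 x hx⟩
  choose D hD using H
  refine ⟨D, ⟨3, fun a => g * jac k u a, (top_iff hs _).2 (exists_basis_coeff hu hg), hD⟩,
    fun x hx => neg_eq_zero.1 ((hD x).unique (h0 x hx)), fun x E hx hE => ?_⟩
  have h2 := (hD x).unique (hE.isLeast π hs hn hu hx hg)
  push_cast at h2 ⊢
  linarith

end Pool.Agent.Lib.PL87
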