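import Pool.Agent.Lib.PL87.Zar
import Pool.Agent.Lib.PL87.Defs
import Pool.Agent.Lib.MP_5f81cf_ag.FAll3

/-! From the definition through birational models to the condition on places. -/

namespace Pool.Agent.Lib.PL87

open Pool.Agent.Lib.MP_e06174_ag Pool.Agent.Lib.MP_5f81cf_ag Pool.Agent.Lib.MP_5f81cf_ag.Full
open Pool.Agent.Lib.MP_99f32e_ag AlgebraicGeometry CategoryTheory Order IsLocalRing

section pull

variable {X Y : Scheme.{0}} [IsIntegral X] [IsIntegral Y] [IsLocallyNoetherian X]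
  [IsLocallyNoetherian Y] (hn : ∀ x : X, IsIntegrallyClosed (X.presheaf.stalk x))
  (f : Y ⟶ X) [IsDominant f]

include hn

lemma ord_pull_eq {g h : X.functionField} (hg : g ≠ 0) (hh : h ≠ 0) (y : Y)
    (e : ∀ z, z ⤳ f y → X.ord g z = X.ord h z) :
    Y.ord (pullFun f g) y = Y.ord (pullFun f h) y := by
  have key {g h : X.functionField} (hg : g ≠ 0) (hh : h ≠ 0)
      (e : ∀ z, z ⤳ f y → X.ord g z = X.ord h z) :
      Y.ord (pullFun f h) y ≤ Y.ord (pullFun f g) y := by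
    have h1 := ord_nonneg_of_mem (pullFun_mem_stalk f (hartogs hn (f y) (g * h⁻¹) fun z hz => by
      rw [Scheme.ord_mul hg (inv_ne_zero hh), ord_inv' hh, e z hz]; simp))
    have h2 : pullFun f h ≠ 0 := (map_ne_zero (pullFun f).hom).2 hh
    have h3 : pullFun f g ≠ 0 := (map_ne_zero (pullFun f).hom).2 hg
    rw [map_mul, map_inv₀, Scheme.ord_mul h3 (inv_ne_zero h2), ord_inv' h2] at h1
    omega
  exact le_antisymm (key hh hg fun z hz => (e z hz).symm) (key hg hh e)

lemma exists_pull {D : X → ℚ} {m : ℕ} (hm : 0 < m) (hD : ∀ x : X, ∃ (U : X.Opens)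
    (h : X.functionField), x ∈ U ∧ h ≠ 0 ∧ ∀ z ∈ U, m * D z = X.ord h z) :
    ∃ P : Y → ℚ, IsPullbackDiv f D P ∧ ∀ (U : X.Opens) (h : X.functionField), h ≠ 0 →
      (∀ z ∈ U, m * D z = X.ord h z) → ∀ y, f y ∈ U → m * P y = Y.ord (pullFun f h) y := by
  choose V g hV hg hD using hD
  have hm' : (m : ℚ) ≠ 0 := by exact_mod_cast hm.ne'
  have H (U : X.Opens) (h : X.functionField) (hh : h ≠ 0) (hU : ∀ z ∈ U, m * D z = X.ord h z)
      (y : Y) (hy : f y ∈ U) :
      (m : ℚ) * (Y.ord (pullFun f (g (f y))) y / m) = Y.ord (pullFun f h) y := by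
    rw [mul_div_cancel₀ _ hm', ord_pull_eq hn f (hg _) hh y fun z hz => ?_]
    exact_mod_cast (hD _ z (hz.mem_open (V _).2 (hV _))).symm.trans (hU z (hz.mem_open U.2 hy))
  exact ⟨fun y => Y.ord (pullFun f (g (f y))) y / m, ⟨m, hm, fun z =>
    ⟨V z, g z, hV z, hg z, hD z, H _ _ (hg z) (hD z)⟩⟩, H⟩

end pull

variable {k : Type} [Field k] [IsAlgClosed k] {p : ℕ} [Fact p.Prime] [CharP k p]
  {X : Scheme.{0}} [IsIntegral X] [IsLocallyNoetherian X] [Algebra k X.functionField]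
  {π : X ⟶ Spec (.of k)} (hs : algebraMap k X.functionField = const π)
  {u : Fin 3 → X.functionField} (hu : IsPB p u)

include hs hu in
theorem discrepancy (hX : IsNormalVariety π) {Δ KX : X → ℚ} {g : X.functionField} (hg : g ≠ 0)
    (hK : ∀ (x : X) (E : Place k X.functionField), coheight x = 1 → IsPl E x →
      KX x = (lam k u E - 1 - E.ord g : ℤ))
    {m : ℕ} (hm : 0 < m) (hD : ∀ x : X, ∃ (U : X.Opens) (h : X.functionField), x ∈ U ∧ h ≠ 0 ∧
      ∀ z ∈ U, m * (KX + Δ) z = X.ord h z)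
    (H : ∀ (Y : Scheme.{0}) [IsIntegral Y] [IsLocallyNoetherian Y] (f : Y ⟶ X) [IsDominant f],
      IsProper f → IsIso (pullFun f) → IsNormalVariety (f ≫ π) →
      ∀ KY P a : Y → ℚ, IsCanonicalDiv (f ≫ π) KY → IsPullbackDiv f (KX + Δ) P →
        (∀ y, a y ≠ 0 → IsExceptional f y) → KY + strictTransform f Δ = P + a →
        ∀ y, IsExceptional f y → -1 < a y)
    {x : X} (hx : 2 ≤ coheight x) {E : Place k X.functionField}
    (hE : HasCentre E (maximalIdeal (X.presheaf.stalk x))) (hdiv : IsDivisorial 3 E)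
    {U : X.Opens} {h : X.functionField} (hxU : x ∈ U) (hh : h ≠ 0)
    (hU : ∀ z ∈ U, m * (KX + Δ) z = X.ord h z) :
    (-1 : ℚ) < (lam k u E - 1 - E.ord g : ℤ) - E.ord h / m := by
  obtain ⟨-, _, _, _, hn⟩ := hX
  have := ess π hs
  have hm' : (m : ℚ) ≠ 0 := by exact_mod_cast hm.ne'
  obtain ⟨Y, _, f, _, _, hiso, hnY, y, hy, rfl, hyE⟩ :=
    zariski p π hs (d := 2) ((car2_all k p).trdeg_eq hu) hE hdiv
  have : IsLocallyNoetherian Y := LocallyOfFiniteType.isLocallyNoetherian f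
  let := (const (f ≫ π)).toAlgebra
  let e : X.functionField ≃ₐ[k] Y.functionField :=
    .ofBijective ⟨(pullFun f).hom, fun r => hs ▸ pullFun_const f π r⟩
      (ConcreteCategory.bijective_of_isIso (pullFun f))
  obtain ⟨KY, hKY, hK0, hK1⟩ := exists_canon (f ≫ π) rfl hnY (isPB_map e hu)
    (g := e g) (by simpa using hg)
  obtain ⟨P, hP, hP'⟩ := exists_pull hn f hm hD
  have pl (w : Y) (hw : coheight w = 1) : ∃ F : Place k X.functionField,
      (∀ t, F.ord t = Y.ord (pullFun f t) w) ∧ (∀ t, F.Ge 0 t ↔ Reg w (pullFun f t)) ∧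
      KY w = (lam k u F - 1 - F.ord g : ℤ) := by
    obtain ⟨F', hF'⟩ := exists_isPl (k := k) (hnY w) hw fun c => reg_const (f ≫ π) w c
    obtain ⟨F, hF⟩ := exists_comap e F'
    refine ⟨F, fun t => (hF t).symm.trans (hF' _), fun t => ?_, ?_⟩
    · rw [← hF'.ge_iff (hnY w) hw, Place.ge_iff', Place.ge_iff', ← hF, ← map_eq_zero e]
      rfl
    · rw [hK1 w F' hw hF', lam_map e hu hF, hF]
  have h1 := H Y f inferInstance hiso
    ⟨inferInstance, inferInstance, inferInstance, inferInstance, hnY⟩ KY P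
    (KY + strictTransform f Δ - P) hKY hP (fun w hw => ?_) (by ring) y ⟨hy, hx⟩
  · obtain ⟨F, h2, h3, h4⟩ := pl y hy
    obtain rfl : F = E := Place.ext_of_ge fun t ht => hyE t ((h3 t).1 ht)
    have h5 : coheight (f y) ≠ 1 := fun h => by rw [h] at hx; exact absurd hx (by decide)
    have h6 := hP' U h hh hU y hxU
    rw [← h2] at h6
    simp only [Pi.sub_apply, Pi.add_apply, strictTransform, h5, and_false, if_false, add_zero,
      h4] at h1
    rwa [← h6, mul_div_cancel_left₀ _ hm']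
  by_contra hex
  refine hw ?_
  obtain ⟨V, t, hV, ht, hVt⟩ := hD (f w)
  have h6 := hP' V t ht hVt w hV
  by_cases hw1 : coheight w = 1
  · obtain ⟨F, h2, h3, h4⟩ := pl w hw1
    have h7 : coheight (f w) ≠ 0 := fun h0 => by
      have h8 : f w = genericPoint X := ((genericPoint_specializes (f w)).antisymm
        (coheight_eq_zero.1 h0 (le_top (a := f w)))).eq.symm
      obtain ⟨r, -, hr⟩ := F.exists_ord_eq (-1)
      have h9 : Reg (f w) r := by
        rw [h8]
        exact ⟨r, by simp [RingHom.algebraMap_toAlgebra]⟩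
      have := ord_nonneg_of_mem (pullFun_mem_stalk f h9)
      rw [← h2, hr] at this
      omega
    have h8 : coheight (f w) = 1 := by
      have : ¬ 2 ≤ coheight (f w) := fun h => hex ⟨hw1, h⟩
      exact le_antisymm (Order.le_of_lt_add_one (not_le.1 this)) (Order.one_le_iff_ne_zero.2 h7)
    obtain ⟨F', hF'⟩ := exists_isPl (k := k) (hn _) h8 fun c => hs ▸ reg_const π (f w) c
    obtain rfl := hF'.eq (hn _) h8 fun t ht => (h3 t).2 (pullFun_mem_stalk f ht)
    rw [← h2, hF', ← hVt _ hV, mul_right_inj' hm'] at h6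
    simp only [Pi.sub_apply, Pi.add_apply, strictTransform, hw1, h8, and_self, if_true, h6, h4,
      hK _ _ h8 hF', sub_self]
  · rw [Scheme.ord_eq_zero_of_coheight_neq_one hw1] at h6
    have : P w = 0 := by simpa [hm.ne'] using h6
    simp [strictTransform, hw1, hK0 w hw1, this]

include hs in
theorem normal_quot (hp : p ≠ 2) (hdim : topologicalKrullDim X = 3) {Δ : X → ℚ} (hΔ : IsPlt π Δ)
    {U : X.Opens} (hU : IsAffineOpen U) (η : U) (hη : Δ η = 1) :
    IsIntegrallyClosed (Γ(X, U) ⧸ (hU.primeIdealOf η).asIdeal) := by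
  obtain ⟨hX, -, h1, h0, KX, hKX, ⟨m, hm, hD⟩, H⟩ := hΔ
  obtain ⟨-, _, -, -, hn⟩ := id hX
  have : Nonempty U := ⟨η⟩
  have := ess π hs
  have hd := trdeg_of_dim p π hs (n := 3) hdim
  obtain ⟨u, hu⟩ := (car2_all k p).exists_pb hd
  obtain ⟨g, hg, hK⟩ := canon_eq π hs hn hu hKX
  obtain ⟨_, _, _⟩ := exists_chart π hs hU
  have := functionField_isFractionRing_of_isAffineOpen X U hU
  have := normal_chart hn hU
  have hm' : (m : ℚ) ≠ 0 := by exact_mod_cast hm.ne'
  have hη1 := h1 η (hη ▸ one_ne_zero)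
  obtain ⟨S, hS⟩ := exists_isPl (k := k) (hn _) hη1 fun c => hs ▸ reg_const π η.1 c
  have hSq := (centre_iff hU η S).2 (hS.centre (hn _) hη1)
  have hq1 := (height_primeIdealOf hU η).trans hη1
  refine main_all k p hp hd hSq hq1 fun M hM hle => ?_
  obtain ⟨x, rfl⟩ := exists_point hU M
  obtain ⟨V, h, hV, hh, hVh⟩ := hD x
  have key (E : Place k X.functionField) (z : U) (hE : HasCentre E (hU.primeIdealOf z).asIdeal)
      (hz : (hU.primeIdealOf z).asIdeal ≤ (hU.primeIdealOf x).asIdeal) (hz1 : coheight z.1 = 1) :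
      E.ord h / m - formOrd 3 E (g⁻¹ • vol k u) = Δ z := by
    obtain ⟨F, hF⟩ := exists_isPl (k := k) (hn _) hz1 fun c => hs ▸ reg_const π z.1 c
    obtain rfl := hF.eq (hn _) hz1 (F := E) fun t ⟨r, hr⟩ =>
      hr ▸ ((centre_iff hU z E).1 hE).ge r
    rw [formOrd_inv hu (hF.div p π hs hn hz1 hd) hg, ← hK _ _ hz1 hF, hF,
      ← hVh _ ((specializes_of_le hU hz).mem_open V.2 hV), mul_div_cancel_left₀ _ hm']
    simp
  classical
  refine ⟨fun E => if ∃ q : Ideal Γ(X, U), HasCentre E q ∧ q ≤ (hU.primeIdealOf x).asIdeal ∧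
      q.height = 1 then E.ord h / m - formOrd 3 E (g⁻¹ • vol k u) else 0, g⁻¹ • vol k u, m, h,
    fun E => ?_, ?_, vol_ne hu hg, hm, hh, fun E q hq hqx => ⟨fun hq1 => ?_, fun hq2 hdiv => ?_⟩⟩
  · dsimp only
    split_ifs with hc
    · obtain ⟨q, hq, hqx, hq1⟩ := hc
      have := hq.isPrime
      obtain ⟨z, rfl⟩ := exists_point hU q
      rw [key E z hq hqx ((height_primeIdealOf hU z).symm.trans hq1)]
      exact (h0 _).1
    · exact le_rfl
  · dsimp only
    rw [if_pos ⟨_, hSq, hle, hq1⟩, key S η hSq hle hη1, hη]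
  · dsimp only
    rw [if_pos ⟨q, hq, hqx, hq1⟩]
    field_simp
    ring
  · have := hq.isPrime
    obtain ⟨z, rfl⟩ := exists_point hU q
    rw [formOrd_inv hu hdiv hg]
    exact discrepancy hs hu hX hg hK hm hD H ((height_primeIdealOf hU z) ▸ hq2)
      ((centre_iff hU z E).1 hq) hdiv ((specializes_of_le hU hqx).mem_open V.2 hV) hh hVh

omit [Algebra k X.functionField] in
theorem main (hp : p ≠ 2) (hdim : topologicalKrullDim X = 3) {Δ : X → ℚ} (hΔ : IsPlt π Δ)
    {S : Scheme.{0}} [IsIntegral S] (ι : S ⟶ X) [IsClosedImmersion ι]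
    (hS : Δ (ι (genericPoint S)) = 1) : IsNormalVariety (ι ≫ π) := by
  obtain ⟨-, _, _, _, -⟩ := hΔ.1
  refine ⟨inferInstance, inferInstance, inferInstance, inferInstance, fun s => ?_⟩
  let := (const π).toAlgebra
  obtain ⟨U, hU, hs, -⟩ := exists_isAffineOpen_mem_and_subset (x := ι s) (U := ⊤) trivial
  have hs' : s ∈ ι ⁻¹ᵁ U := hs
  have hη : genericPoint S ∈ ι ⁻¹ᵁ U := genericPoint_mem ⟨s, hs'⟩
  have hW := hU.preimage ι
  have h1 := normal_quot rfl hp hdim hΔ hU ⟨_, hη⟩ hS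
  have h2 : RingHom.ker (ι.app U).hom = (hU.primeIdealOf ⟨_, hη⟩).asIdeal := by
    ext r
    let _ := TopCat.Presheaf.algebra_section_stalk X.presheaf (⟨_, hη⟩ : U)
    have := hU.isLocalization_stalk ⟨_, hη⟩
    rw [← IsLocalization.AtPrime.to_map_mem_maximal_iff (X.presheaf.stalk (ι (genericPoint S)))
      (hU.primeIdealOf ⟨_, hη⟩).asIdeal,
      mem_maximalIdeal, mem_nonunits_iff, ← isUnit_map_iff (ι.stalkMap (genericPoint S)).hom,
      RingHom.mem_ker, ← map_eq_zero_iff _ (germ_injective_of_isIntegral S _ hη),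
      ← Scheme.Hom.germ_stalkMap_apply]
    exact (not_not.symm.trans (isUnit_iff_ne_zero (G₀ := S.functionField)).not.symm)
  rw [← h2] at h1
  have : Nonempty (ι ⁻¹ᵁ U) := ⟨⟨s, hs'⟩⟩
  have : IsIntegrallyClosed Γ(S, ι ⁻¹ᵁ U) :=
    .of_equiv (RingHom.quotientKerEquivOfSurjective (ι.app_surjective U hU))
  let _ := TopCat.Presheaf.algebra_section_stalk S.presheaf (⟨s, hs'⟩ : ι ⁻¹ᵁ U)
  have := hW.isLocalization_stalk ⟨s, hs'⟩
  exact isIntegrallyClosed_of_isLocalization _ (hW.primeIdealOf ⟨s, hs'⟩).asIdeal.primeCompl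
    (Ideal.primeCompl_le_nonZeroDivisors _)

end Pool.Agent.Lib.PL87
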