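import Pool.Agent.Lib.PL87.Dict

/-! The normalisation of a scheme in a generic point with values in a field. -/

namespace Pool.Agent.Lib.PL87

open Pool.Agent.Lib.MP_e06174_ag Pool.Agent.Lib.MP_5f81cf_ag Pool.Agent.Lib.MP_5f81cf_ag.Full
open Pool.Agent.Lib.MP_99f32e_ag AlgebraicGeometry CategoryTheory Order IsLocalRing

lemma finite_intCl {k B C K : Type} [Field k] [IsAlgClosed k] (p : ℕ) [Fact p.Prime] [CharP k p]
    [CommRing B] [Algebra k B] [Algebra.FiniteType k B] [Field K] [Algebra k K] [Algebra B K]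
    [IsScalarTower k B K] [Algebra.EssFiniteType k K] [CommRing C] [Algebra B C] [Algebra C K]
    [IsScalarTower B C K] [IsIntegralClosure C B K]
    (h : ∀ g : K, ∃ a b : B, algebraMap B K b ≠ 0 ∧ g * algebraMap B K b = algebraMap B K a) :
    Module.Finite B C := by
  let φ := IsScalarTower.toAlgHom k B K
  let A := φ.range
  have : Algebra.FiniteType k A := .of_surjective φ.rangeRestrict φ.rangeRestrict_surjective
  have : Algebra.IsAlgebraic A K := ⟨fun g => by
    obtain ⟨a, b, hb, e⟩ := h g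
    refine ⟨Polynomial.C (φ.rangeRestrict b) * Polynomial.X - Polynomial.C (φ.rangeRestrict a),
      fun h0 => hb ?_, ?_⟩
    · have : φ b = 0 := by simpa using congrArg (fun P => ((Polynomial.coeff P 1 : A) : K)) h0
      exact this
    · simp only [map_sub, map_mul, Polynomial.aeval_C, Polynomial.aeval_X, sub_eq_zero]
      exact (mul_comm _ _).trans e⟩
  have : Module.Finite A (integralClosure A K) := finite_norm (k := k) (p := p)
  let : Algebra B A := φ.rangeRestrict.toRingHom.toAlgebra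
  have : IsScalarTower B A K := .of_algebraMap_eq fun _ => rfl
  have : Module.Finite B A := RingHom.Finite.of_surjective _ φ.rangeRestrict_surjective
  have : Module.Finite B (integralClosure A K) := Module.Finite.trans A _
  have : IsIntegralClosure (integralClosure A K) B K :=
    ⟨Subtype.val_injective, fun {x} =>
      ⟨fun h => ⟨⟨x, h.tower_top⟩, rfl⟩, fun ⟨y, hy⟩ => hy ▸ isIntegral_trans (A := A) _ y.2⟩⟩
  exact Module.Finite.equiv (IsIntegralClosure.equiv B (integralClosure A K) K C).toLinearEquiv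

section emb

variable {K : Type} [Field K] {Y : Scheme.{0}} (δ : Spec (.of K) ⟶ Y)

lemma top_le {U : Y.Opens} (hU : δ (closedPoint K) ∈ U) : ⊤ ≤ δ ⁻¹ᵁ U :=
  (Scheme.preimage_eq_top_of_closedPoint_mem δ hU).ge

variable [IsDominant δ]

lemma pt_specializes (y : Y) : δ (closedPoint K) ⤳ y := by
  have h1 : Set.range δ = {δ (closedPoint K)} := by
    ext x
    constructor
    · rintro ⟨t, rfl⟩
      have : t = closedPoint K := Subsingleton.elim (α := PrimeSpectrum K) _ _
      rw [this]; rfl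
    · rintro rfl; exact ⟨_, rfl⟩
  rw [specializes_iff_mem_closure, ← h1]
  exact δ.denseRange _

lemma top_le' {U : Y.Opens} {y : Y} (hU : y ∈ U) : ⊤ ≤ δ ⁻¹ᵁ U :=
  top_le δ ((pt_specializes δ y).mem_open U.isOpen hU)

variable [IsIntegral Y]

/-- The embedding of the function field. -/
noncomputable def emb : Y.functionField →+* K :=
  (Y.presheaf.stalkSpecializes (pt_specializes δ _) ≫ Scheme.stalkClosedPointTo δ).hom

lemma emb_germ (U : Y.Opens) (hU : genericPoint Y ∈ U) (h : ⊤ ≤ δ ⁻¹ᵁ U) (s : Γ(Y, U)) :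
    emb δ (Y.presheaf.germ U _ hU s) = evalAt δ U h s := by
  have : Y.presheaf.germ U _ hU ≫ Y.presheaf.stalkSpecializes (pt_specializes δ _) ≫
      Scheme.stalkClosedPointTo δ = evalAt δ U h := by
    rw [TopCat.Presheaf.germ_stalkSpecializes_assoc, Scheme.germ_stalkClosedPointTo, evalAt]
    simp [Scheme.Hom.app_eq_appLE]
  exact congr($this s)

lemma emb_stalk {O : Type} [CommRing O] [IsLocalRing O] [Algebra O K] (l : Spec (.of O) ⟶ Y)
    (hl : Spec.map (CommRingCat.ofHom (algebraMap O K)) ≫ l = δ)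
    (a : Y.presheaf.stalk (l (closedPoint O))) :
    emb δ (algebraMap _ _ a) = algebraMap O K (Scheme.stalkClosedPointTo l a) := by
  obtain ⟨U, hU, s, rfl⟩ := Y.presheaf.exists_germ_eq a
  have h := top_le' δ hU
  rw [← germ_mem_stalk (genericPoint_mem ⟨_, hU⟩), emb_germ δ U _ h]
  subst hl
  have : evalAt _ U h = Y.presheaf.germ U _ hU ≫ Scheme.stalkClosedPointTo l ≫
      CommRingCat.ofHom (algebraMap O K) := by
    have h' := (Scheme.preimage_eq_top_of_closedPoint_mem l hU).ge
    rw [Scheme.germ_stalkClosedPointTo_assoc, evalAt,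
      ← Scheme.Hom.appLE_comp_appLE _ l U ⊤ ⊤ h' le_top]
    simp only [Scheme.Hom.app_eq_appLE, Iso.trans_hom, Functor.mapIso_hom, Category.assoc,
      Scheme.Hom.appLE_map_assoc, ← Scheme.ΓSpecIso_naturality]
    rw [← Scheme.Hom.app_eq_appLE]
    rfl
  exact congr($this s)

end emb

section generic

variable {X : Scheme.{0}} [IsIntegral X]

lemma evalAt_generic {γ : Spec (.of X.functionField) ⟶ X}
    (hγ : γ = X.fromSpecStalk (genericPoint X)) (U : X.Opens) (hU : genericPoint X ∈ U)
    (h : ⊤ ≤ γ ⁻¹ᵁ U) : evalAt γ U h = X.presheaf.germ U _ hU := by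
  subst hγ
  rw [evalAt, Scheme.Hom.appLE, Scheme.fromSpecStalk_app hU]
  simp only [Category.assoc]
  erw [← Functor.map_comp_assoc]
  rw [Subsingleton.elim ((homOfLE _).op ≫ (homOfLE h).op) (𝟙 _), CategoryTheory.Functor.map_id,
    Category.id_comp]
  erw [Iso.inv_hom_id]
  exact Category.comp_id _

lemma generic_comp {k : Type} [Field k] (π : X ⟶ Spec (.of k)) :
    X.fromSpecStalk (genericPoint X) ≫ π = Spec.map (CommRingCat.ofHom (const π)) := by
  conv_lhs => rw [← Category.comp_id π, ← toSpecΓ_SpecMap_ΓSpecIso_inv,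
    Scheme.toSpecΓ_naturality_assoc, Scheme.fromSpecStalk_toSpecΓ_assoc, ← Spec.map_comp,
    ← Spec.map_comp]
  rfl

instance : IsDominant (X.fromSpecStalk (genericPoint X)) :=
  ⟨fun x => closure_mono (Set.singleton_subset_iff.2
    (Set.mem_range.2 ⟨_, Scheme.fromSpecStalk_closedPoint⟩))
    (specializes_iff_mem_closure.1 (genericPoint_specializes x))⟩

lemma emb_pullFun {Y : Scheme.{0}} [IsIntegral Y] (δ : Spec (.of X.functionField) ⟶ Y)
    [IsDominant δ] (f : Y ⟶ X) [IsDominant f] (h : δ ≫ f = X.fromSpecStalk (genericPoint X))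
    (g : X.functionField) : emb δ (pullFun f g) = g := by
  obtain ⟨U, hU, s, rfl⟩ := X.presheaf.exists_germ_eq g
  have hU' := genericPoint_mem_preimage f hU
  have h1 : pullFun f (X.presheaf.germ U _ hU s) = _ := congr($(pullFun_germ f U hU hU') s)
  have h2 := app_evalAt δ f U (top_le' δ hU')
  rw [evalAt_generic h U hU] at h2
  rw [h1]
  exact (emb_germ δ _ hU' _ _).trans congr($h2 s)

end generic

section norm

variable {K : Type} [Field K] {P : Scheme.{0}} (γ : Spec (.of K) ⟶ P)

lemma norm_top {V : P.Opens} : ⊤ ≤ γ.toNormalization ⁻¹ᵁ γ.fromNormalization ⁻¹ᵁ V ↔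
    ⊤ ≤ γ ⁻¹ᵁ V := by
  rw [← Scheme.Hom.comp_preimage, Scheme.Hom.toNormalization_fromNormalization]

lemma norm_eval {V : P.Opens} (h : ⊤ ≤ γ ⁻¹ᵁ V) : γ.fromNormalization.app V ≫
    evalAt γ.toNormalization _ ((norm_top γ).2 h) = evalAt γ V h :=
  (app_evalAt _ _ _ _).trans (evalAt_congr γ.toNormalization_fromNormalization _ _ _)

lemma norm_surj {V : P.Opens} (hV : IsAffineOpen V) (h : ⊤ ≤ γ ⁻¹ᵁ V) {g : K}
    (hg : (evalAt γ V h).hom.IsIntegralElem g) :
    ∃ s, evalAt γ.toNormalization _ ((norm_top γ).2 h) s = g := by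
  let := (γ.app V).hom.toAlgebra
  let j : Γ(Spec (.of K), γ ⁻¹ᵁ V) ≅ .of K :=
    (Spec (.of K)).presheaf.mapIso (eqToIso (top_le_iff.1 h).symm).op ≪≫ Scheme.ΓSpecIso _
  have h1 : γ.app V ≫ j.hom = evalAt γ V h := by simp [j, evalAt, Scheme.Hom.app_eq_appLE]
  have h2 : (γ.normalizationObjIso hV).hom ≫ CommRingCat.ofHom (Subalgebra.val _).toRingHom ≫
      j.hom = evalAt γ.toNormalization _ ((norm_top γ).2 h) := by
    rw [← Category.assoc, γ.normalizationObjIso_hom_val hV]
    simp [j, evalAt]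
  have h3 : IsIntegral Γ(P, V) (j.inv g) := by
    obtain ⟨Q, hQ, e⟩ := hg
    refine ⟨Q, hQ, ?_⟩
    have := congrArg j.inv.hom e
    rw [Polynomial.hom_eval₂, map_zero, ← h1, ← CommRingCat.hom_comp, Category.assoc,
      j.hom_inv_id, Category.comp_id] at this
    exact this
  refine ⟨(γ.normalizationObjIso hV).inv ⟨_, h3⟩, ?_⟩
  rw [← h2]
  simp

lemma norm_normal (y : γ.normalization) :
    IsIntegrallyClosed (γ.normalization.presheaf.stalk y) := by
  obtain ⟨V, hV, hy, -⟩ :=
    exists_isAffineOpen_mem_and_subset (x := γ.fromNormalization y) (U := ⊤) trivial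
  have hW := hV.preimage γ.fromNormalization
  have hy' : y ∈ γ.fromNormalization ⁻¹ᵁ V := hy
  have h' := top_le' γ.toNormalization hy'
  have h := (norm_top γ).1 h'
  have : Nonempty (γ.fromNormalization ⁻¹ᵁ V) := ⟨⟨y, hy'⟩⟩
  have := functionField_isFractionRing_of_isAffineOpen _ _ hW
  have : IsIntegrallyClosed Γ(γ.normalization, γ.fromNormalization ⁻¹ᵁ V) := by
    refine (isIntegrallyClosed_iff γ.normalization.functionField).2 fun {g} hg => ?_
    let := (γ.fromNormalization.app V).hom.toAlgebra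
    let := (evalAt γ.toNormalization _ h').hom.toAlgebra
    let := (evalAt γ V h).hom.toAlgebra
    have : IsScalarTower Γ(P, V) Γ(γ.normalization, γ.fromNormalization ⁻¹ᵁ V) K :=
      .of_algebraMap_eq' (congrArg CommRingCat.Hom.hom (norm_eval γ h).symm)
    have : Algebra.IsIntegral Γ(P, V) Γ(γ.normalization, γ.fromNormalization ⁻¹ᵁ V) :=
      ⟨γ.fromNormalization.isIntegral_app V hV⟩
    have h1 : IsIntegral Γ(γ.normalization, γ.fromNormalization ⁻¹ᵁ V)
        (emb γ.toNormalization g) := by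
      obtain ⟨Q, hQ, e⟩ := hg
      refine ⟨Q, hQ, ?_⟩
      have := congrArg (emb γ.toNormalization) e
      rw [Polynomial.hom_eval₂, map_zero] at this
      rw [← this]
      congr 1
      ext s
      exact (emb_germ _ _ _ _ s).symm
    obtain ⟨s, hs⟩ := norm_surj γ hV h (isIntegral_trans (R := Γ(P, V)) _ h1)
    exact ⟨s, (emb γ.toNormalization).injective ((emb_germ _ _ _ _ s).trans hs)⟩
  let _ := TopCat.Presheaf.algebra_section_stalk γ.normalization.presheaf
    (⟨y, hy'⟩ : γ.fromNormalization ⁻¹ᵁ V)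
  have := hW.isLocalization_stalk ⟨y, hy'⟩
  exact isIntegrallyClosed_of_isLocalization _ (hW.primeIdealOf ⟨y, hy'⟩).asIdeal.primeCompl
    (Ideal.primeCompl_le_nonZeroDivisors _)

lemma norm_finite {k : Type} [Field k] [IsAlgClosed k] (p : ℕ) [Fact p.Prime] [CharP k p]
    [Algebra k K] [Algebra.EssFiniteType k K] (σ : P ⟶ Spec (.of k)) [LocallyOfFiniteType σ]
    (hσ : γ ≫ σ = Spec.map (CommRingCat.ofHom (algebraMap k K)))
    (hγ : Function.Surjective (Scheme.stalkClosedPointTo γ)) : IsFinite γ.fromNormalization := by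
  refine ⟨fun V hV => ?_⟩
  by_cases hy : γ (closedPoint K) ∈ V
  swap
  · have : γ.fromNormalization ⁻¹ᵁ V = ⊥ := eq_bot_iff.2 fun y hy' =>
      hy ((norm_top γ).1 (top_le' γ.toNormalization hy') (Set.mem_univ (closedPoint K)))
    have : Subsingleton Γ(γ.normalization, γ.fromNormalization ⁻¹ᵁ V) := by
      rw [this]; infer_instance
    exact RingHom.Finite.of_surjective _ (Function.surjective_to_subsingleton _)
  have h := top_le γ hy
  have h' := (norm_top γ).2 h
  let := (γ.fromNormalization.app V).hom.toAlgebra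
  let := (evalAt γ.toNormalization _ h').hom.toAlgebra
  let := (evalAt γ V h).hom.toAlgebra
  have : IsScalarTower Γ(P, V) Γ(γ.normalization, γ.fromNormalization ⁻¹ᵁ V) K :=
    .of_algebraMap_eq' (congrArg CommRingCat.Hom.hom (norm_eval γ h).symm)
  have hg : genericPoint γ.normalization ∈ γ.fromNormalization ⁻¹ᵁ V :=
    genericPoint_mem ⟨_, h' (Set.mem_univ (closedPoint K))⟩
  have : IsIntegralClosure Γ(γ.normalization, γ.fromNormalization ⁻¹ᵁ V) Γ(P, V) K := by
    refine ⟨fun a b hab => ?_, fun {g} => ⟨norm_surj γ hV h, ?_⟩⟩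
    · refine germ_injective_of_isIntegral _ _ hg ((emb γ.toNormalization).injective ?_)
      rw [emb_germ _ _ _ h', emb_germ _ _ _ h']
      exact hab
    · rintro ⟨s, rfl⟩
      exact IsIntegral.algebraMap (γ.fromNormalization.isIntegral_app V hV s)
  let φ : CommRingCat.of k ⟶ Γ(P, V) := (Scheme.ΓSpecIso (.of k)).inv ≫ σ.appLE ⊤ V le_top
  let : Algebra k Γ(P, V) := φ.hom.toAlgebra
  have : Algebra.FiniteType k Γ(P, V) :=
    (σ.finiteType_appLE (isAffineOpen_top _) hV (U := ⊤) le_top).comp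
      (RingHom.FiniteType.of_surjective _
        (Scheme.ΓSpecIso (.of k)).symm.commRingCatIsoToRingEquiv.surjective)
  have : IsScalarTower k Γ(P, V) K := by
    have : φ ≫ evalAt γ V h = CommRingCat.ofHom (algebraMap k K) := by
      rw [Category.assoc, appLE_evalAt γ σ ⊤ V le_top h le_top, evalAt, Iso.inv_comp_eq]
      simp only [hσ]
      rw [← Scheme.ΓSpecIso_naturality]
      congr 1
    exact .of_algebraMap_eq' (congrArg CommRingCat.Hom.hom this.symm)
  refine finite_intCl (k := k) (K := K) p fun g => ?_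
  obtain ⟨a, rfl⟩ := hγ g
  let _ := TopCat.Presheaf.algebra_section_stalk P.presheaf (⟨_, hy⟩ : V)
  have := hV.isLocalization_stalk ⟨_, hy⟩
  obtain ⟨⟨r, s⟩, e⟩ := IsLocalization.surj (hV.primeIdealOf ⟨_, hy⟩).asIdeal.primeCompl a
  have h1 : P.presheaf.germ V _ hy ≫ Scheme.stalkClosedPointTo γ = evalAt γ V h := by
    rw [Scheme.germ_stalkClosedPointTo, evalAt]
    simp [Scheme.Hom.app_eq_appLE]
  have h2 (t : Γ(P, V)) : Scheme.stalkClosedPointTo γ (algebraMap _ _ t) = algebraMap _ K t :=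
    congr($h1 t)
  refine ⟨r, s, ?_, ?_⟩
  · rw [← h2]
    exact ((IsLocalization.map_units _ s).map _).ne_zero
  · rw [← h2, ← h2, ← e, map_mul]

end norm

end Pool.Agent.Lib.PL87
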