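import Pool.Agent.Lib.PL87.Norm

/-! A divisorial place with a centre is a prime divisor on a proper birational normal model. -/

namespace Pool.Agent.Lib.PL87

open Pool.Agent.Lib.MP_e06174_ag Pool.Agent.Lib.MP_5f81cf_ag Pool.Agent.Lib.MP_5f81cf_ag.Full
open Pool.Agent.Lib.MP_99f32e_ag AlgebraicGeometry CategoryTheory Order IsLocalRing Limits

attribute [local instance] MvPolynomial.gradedAlgebra

variable {k : Type} [Field k] [IsAlgClosed k] (p : ℕ) [Fact p.Prime] [CharP k p]
  {X : Scheme.{0}} [IsIntegral X] [Algebra k X.functionField] (π : X ⟶ Spec (.of k))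
  [LocallyOfFiniteType π] (hs : algebraMap k X.functionField = const π)

omit [IsAlgClosed k] in
lemma trdeg_chart {R K : Type} [CommRing R] [IsDomain R] [Algebra k R] [Field K] [Algebra k K]
    [Algebra R K] [IsScalarTower k R K] [IsFractionRing R K] :
    Algebra.trdeg k R = Algebra.trdeg k K := by
  have : FaithfulSMul k R := (faithfulSMul_iff_algebraMap_injective k R).2 (RingHom.injective _)
  have := IsLocalization.isAlgebraic K (nonZeroDivisors R)
  rw [← trdeg_add_eq k R (A := K), trdeg_eq_zero (R := R) (A := K), add_zero]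

include p hs in
lemma coheight_eq_one {d : ℕ} (hd : Algebra.trdeg k X.functionField = (d + 1 : ℕ)) {x : X}
    {E : Place k X.functionField} (hE : HasCentre E (maximalIdeal (X.presheaf.stalk x)))
    {a : Fin d → X.functionField} (ha : ∀ i, Reg x (a i))
    (hP : ∀ P : MvPolynomial (Fin d) k, P ≠ 0 → E.v (MvPolynomial.aeval a P) = 1) :
    coheight x = 1 := by
  choose b hb using ha
  choose V hV s hs' using fun i => X.presheaf.exists_germ_eq (b i)
  obtain ⟨U, hU, hx, hUV⟩ := exists_isAffineOpen_mem_and_subset (x := x) (U := ⨅ i, V i) (by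
    rw [← SetLike.mem_coe, TopologicalSpace.Opens.coe_iInf]
    exact Set.mem_iInter.2 hV)
  have : Nonempty U := ⟨⟨_, hx⟩⟩
  obtain ⟨_, _, _⟩ := exists_chart π hs hU
  have := functionField_isFractionRing_of_isAffineOpen X U hU
  have hle (i) : U ≤ V i := le_trans hUV (iInf_le V i)
  let r (i) : Γ(X, U) := X.presheaf.map (homOfLE (hle i)).op (s i)
  have hr (i) : algebraMap Γ(X, U) X.functionField (r i) = a i := by
    rw [← hb, ← hs', ← germ_mem_stalk (genericPoint_mem ⟨_, hV i⟩)]
    exact X.presheaf.germ_res_apply (homOfLE (hle i)) _ (genericPoint_mem ⟨_, hx⟩) (s i)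
  have hq := (centre_iff hU ⟨x, hx⟩ E).2 hE
  rw [← height_primeIdealOf hU ⟨x, hx⟩]
  generalize (hU.primeIdealOf ⟨x, hx⟩).asIdeal = q at hq ⊢
  have := hq.isPrime
  have hi : AlgebraicIndependent k fun i => Ideal.Quotient.mkₐ k q (r i) := by
    rw [algebraicIndependent_iff]
    intro P h0
    by_contra hP0
    have h1 : MvPolynomial.aeval r P ∈ q := by
      rw [← Ideal.Quotient.eq_zero_iff_mem, ← h0]
      exact MvPolynomial.comp_aeval_apply r (Ideal.Quotient.mkₐ k q) P
    have h2 := Place.ge_one_iff.1 ((hq _).2.1 h1)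
    rw [← MvPolynomial.aeval_algebraMap_apply,
      show algebraMap Γ(X, U) X.functionField ∘ r = a from funext hr, hP P hP0] at h2
    exact lt_irrefl _ h2
  obtain ⟨e, he⟩ := (ca2_all k p).trdeg_fin (R := Γ(X, U) ⧸ q)
  have h1 := hi.cardinalMk_le_trdeg
  rw [he, Cardinal.mk_fin, Nat.cast_le] at h1
  obtain ⟨h2, h3⟩ := (ca2_all k p).height_add q (trdeg_chart.trans hd) he
  have h4 : q.height ≠ 0 := fun h0 => by
    obtain ⟨t, ht0, ht⟩ := E.exists_ord_eq_one
    obtain ⟨u, v, hv, rfl⟩ := IsFractionRing.div_surjective (A := Γ(X, U)) t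
    have hq0 : q = ⊥ := by
      by_contra hne
      exact absurd h0 (Ideal.height_eq_zero_iff_eq_bot.not.2 hne)
    obtain ⟨v1, v2⟩ := hq.ord_eq (a := v) (by simpa [hq0] using nonZeroDivisors.ne_zero hv)
    obtain ⟨u1, u2⟩ := hq.ord_eq (a := u) (by rintro h; simp [hq0] at h; simp [h] at ht0)
    rw [E.ord_div u1 v1] at ht
    omega
  rw [h3] at h4 ⊢
  have : d + 1 - e ≠ 0 := by exact_mod_cast h4
  exact_mod_cast (by omega)

include p hs in
lemma trdeg_of_dim {n : ℕ} (h : topologicalKrullDim X = n) :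
    Algebra.trdeg k X.functionField = n := by
  have H (x : X) : ∃ d : ℕ, Algebra.trdeg k X.functionField = d ∧ coheight x ≤ d ∧
      ∃ y : X, coheight y = d := by
    obtain ⟨U, hU, hx, -⟩ := exists_isAffineOpen_mem_and_subset (x := x) (U := ⊤) trivial
    have : Nonempty U := ⟨⟨_, hx⟩⟩
    obtain ⟨_, _, _⟩ := exists_chart π hs hU
    have := functionField_isFractionRing_of_isAffineOpen X U hU
    obtain ⟨d, hd⟩ := (ca2_all k p).trdeg_fin (R := Γ(X, U))
    refine ⟨d, trdeg_chart.symm.trans hd, ?_, ?_⟩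
    · obtain ⟨e, he⟩ := (ca2_all k p).trdeg_fin (R := Γ(X, U) ⧸ (hU.primeIdealOf ⟨x, hx⟩).asIdeal)
      rw [← height_primeIdealOf hU ⟨x, hx⟩, ((ca2_all k p).height_add _ hd he).2]
      exact_mod_cast Nat.sub_le d e
    · obtain ⟨m, hm⟩ := Ideal.exists_maximal Γ(X, U)
      obtain ⟨y, hy⟩ := exists_point hU m
      let := Ideal.Quotient.field m
      have : Module.Finite k (Γ(X, U) ⧸ m) := finite_of_finite_type_of_isJacobsonRing _ _
      refine ⟨y, ?_⟩
      rw [← height_primeIdealOf hU y, hy,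
        ((ca2_all k p).height_add m hd (e := 0) (by simpa using trdeg_eq_zero)).2]
      simp
  obtain ⟨d, hd, -, y, hy⟩ := H (genericPoint X)
  have h1 : topologicalKrullDim X = ↑(⨆ x : X, coheight x) := by
    rw [← krullDim_eq_iSup_coheight_of_nonempty]
    exact krullDim_eq_of_orderIso irreducibleSetEquivPoints
  have h2 : ⨆ x : X, coheight x = d := by
    refine le_antisymm (iSup_le fun x => ?_) (hy ▸ le_iSup (fun x : X => coheight x) y)
    obtain ⟨d', hd', h3, -⟩ := H x
    rwa [show d = d' by exact_mod_cast hd.symm.trans hd']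
  rw [h1, h2] at h
  rw [hd]
  exact_mod_cast h

include p hs in
lemma coheight_lift {d : ℕ} (hd : Algebra.trdeg k X.functionField = (d + 1 : ℕ))
    {E : Place k X.functionField} {a : Fin d → X.functionField}
    (ha : ∀ P : MvPolynomial (Fin d) k, P ≠ 0 → E.v (MvPolynomial.aeval a P) = 1)
    {Y : Scheme.{0}} [IsIntegral Y] (f : Y ⟶ X) [IsDominant f] [LocallyOfFiniteType f]
    (δ : Spec (.of X.functionField) ⟶ Y) [IsDominant δ]
    (hf : δ ≫ f = X.fromSpecStalk (genericPoint X)) (l : Spec (.of E.v.valuationSubring) ⟶ Y)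
    (hl₁ : Spec.map (CommRingCat.ofHom (algebraMap E.v.valuationSubring X.functionField)) ≫ l = δ)
    (hreg : ∀ i, ∃ g, Reg (l (closedPoint _)) g ∧ emb δ g = a i) :
    coheight (l (closedPoint _)) = 1 := by
  have he := emb_pullFun δ f hf
  have hl := emb_stalk δ l hl₁
  have hbij : Function.Bijective (pullFun f) := ⟨(pullFun f).hom.injective, fun g =>
    ⟨emb δ g, (emb δ).injective (he _)⟩⟩
  let := (const (f ≫ π)).toAlgebra
  let e : X.functionField ≃ₐ[k] Y.functionField :=
    .ofBijective ⟨(pullFun f).hom, fun r => hs ▸ pullFun_const f π r⟩ hbij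
  have he' (g) : e.symm g = emb δ g := by
    obtain ⟨g, rfl⟩ := e.surjective g
    rw [e.symm_apply_apply]
    exact (he g).symm
  obtain ⟨F, hF⟩ := exists_comap e.symm E
  have hF' (n g) : F.Ge n g ↔ E.Ge n (emb δ g) := by
    rw [Place.ge_iff', Place.ge_iff', ← hF, he', map_eq_zero]
  refine coheight_eq_one p (f ≫ π) rfl (e.trdeg_eq.symm.trans hd) (E := F)
    (a := fun i => e (a i)) (fun r => ?_) (fun i => ?_) fun P hP => ?_
  · rw [hF', hF', hl, Place.ge_zero_iff, Place.ge_one_iff]
    refine ⟨(Scheme.stalkClosedPointTo l r).2, ?_⟩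
    rw [mem_maximalIdeal, mem_nonunits_iff, ← isUnit_map_iff (Scheme.stalkClosedPointTo l).hom r]
    exact Valuation.mem_maximalIdeal_iff _ _
  · obtain ⟨g, h1, h2⟩ := hreg i
    rwa [← h2, ← he', e.apply_symm_apply]
  · have h1 := ha P hP
    have h2 : MvPolynomial.aeval a P ≠ 0 := fun h0 => by simp [h0] at h1
    have h3 : MvPolynomial.aeval (fun i => e (a i)) P = e (MvPolynomial.aeval a P) :=
      (MvPolynomial.comp_aeval_apply a e.toAlgHom P).symm
    rw [h3, F.v_eq (by simpa using h2), ← hF, e.symm_apply_apply, ← E.v_eq h2, h1]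

include p hs in
theorem zariski {d : ℕ} (hd : Algebra.trdeg k X.functionField = (d + 1 : ℕ)) {x : X}
    {E : Place k X.functionField} (hE : HasCentre E (maximalIdeal (X.presheaf.stalk x)))
    (hdiv : IsDivisorial (d + 1) E) : ∃ (Y : Scheme.{0}) (_ : IsIntegral Y) (f : Y ⟶ X)
      (_ : IsDominant f), IsProper f ∧ IsIso (pullFun f) ∧
      (∀ y : Y, IsIntegrallyClosed (Y.presheaf.stalk y)) ∧ ∃ y : Y, coheight y = 1 ∧ f y = x ∧
        ∀ g, Reg y (pullFun f g) → E.Ge 0 g := by
  obtain ⟨a, ha⟩ := hdiv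
  have := ess π hs
  let O := E.v.valuationSubring
  let c : Fin (d + 1) → X.functionField := Fin.cons 1 a
  have hX : (MvPolynomial.X 0 : MvPolynomial (Fin (d + 1)) k) ∈
      MvPolynomial.homogeneousSubmodule (Fin (d + 1)) k 1 := MvPolynomial.isHomogeneous_X k 0
  have hc : MvPolynomial.aeval c (MvPolynomial.X 0 : MvPolynomial (Fin (d + 1)) k) ≠ 0 := by
    simp [c]
  have hrange := range_awayEval c 0 hc
  have hmem (t) : awayEval c _ hc t ∈ O.toSubring := by
    have : awayEval c _ hc t ∈ Algebra.adjoin k (Set.range fun j => c j / c 0) := by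
      rw [← SetLike.mem_coe, ← hrange]; exact ⟨t, rfl⟩
    generalize awayEval c _ hc t = g at this
    induction this using Algebra.adjoin_induction with
    | mem g hg =>
      obtain ⟨j, rfl⟩ := hg
      refine Fin.cases (by simp [c]) (fun i => ?_) j
      simpa [c, O] using (ha (MvPolynomial.X i) (MvPolynomial.X_ne_zero i)).le
    | algebraMap r => exact Place.ge_zero_iff.1 (Place.ge_const r)
    | add _ _ _ _ h1 h2 => exact add_mem h1 h2
    | mul _ _ _ _ h1 h2 => exact mul_mem h1 h2
  let σ := Proj.toSpecZero (MvPolynomial.homogeneousSubmodule (Fin (d + 1)) k) ≫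
    Spec.map (CommRingCat.ofHom (algebraMap k _))
  have : IsProper σ := isProper_of_isProjective ⟨d, 𝟙 _, inferInstance, Category.id_comp _⟩
  let ι := Spec.map (CommRingCat.ofHom (algebraMap O X.functionField))
  let θ : Spec (.of O) ⟶ _ := Spec.map (CommRingCat.ofHom
    ((awayEval c _ hc).codRestrict O.toSubring hmem)) ≫ Proj.awayι _ _ hX one_pos
  have hθ : ι ≫ θ = projPoint c _ hc hX one_pos := by
    rw [← Spec.map_comp_assoc]; rfl
  let φ : X.presheaf.stalk x ⟶ .of O := CommRingCat.ofHom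
    ((algebraMap (X.presheaf.stalk x) X.functionField).codRestrict O.toSubring fun r =>
      Place.ge_zero_iff.1 (hE r).1)
  have : IsLocalHom φ.hom := ⟨fun r hr => by
    by_contra h
    exact (Valuation.mem_maximalIdeal_iff _ _).2 (Place.ge_one_iff.1 ((hE r).2.1 h)) hr⟩
  let ψ := Spec.map φ ≫ X.fromSpecStalk x
  have hψ : ι ≫ ψ = X.fromSpecStalk (genericPoint X) := by
    rw [← Spec.map_comp_assoc]
    exact Scheme.SpecMap_stalkSpecializes_fromSpecStalk (genericPoint_specializes x)
  have hk : X.fromSpecStalk (genericPoint X) ≫ π =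
      Spec.map (CommRingCat.ofHom (algebraMap k X.functionField)) := hs ▸ generic_comp π
  have hw : ψ ≫ π = θ ≫ σ := by
    obtain ⟨α, hα⟩ := Spec.map_surjective (ψ ≫ π)
    obtain ⟨β, hβ⟩ := Spec.map_surjective (θ ≫ σ)
    have : ι ≫ Spec.map α = ι ≫ Spec.map β := by
      rw [hα, hβ, reassoc_of% hψ, reassoc_of% hθ, hk, projPoint_toSpec]
    rw [← Spec.map_comp, ← Spec.map_comp] at this
    rw [← hα, ← hβ]
    congr 1
    ext r
    exact congr($(Spec.map_injective this) r)
  let γ := ι ≫ pullback.lift ψ θ hw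
  have hγ : γ ≫ pullback.fst π σ = X.fromSpecStalk (genericPoint X) := by
    rw [Category.assoc, pullback.lift_fst, hψ]
  have hγ' : γ ≫ pullback.snd π σ = projPoint c _ hc hX one_pos := by
    rw [Category.assoc, pullback.lift_snd, hθ]
  have : IsFinite γ.fromNormalization := by
    refine norm_finite γ p (pullback.fst π σ ≫ π) (by rw [reassoc_of% hγ, hk]) ?_
    have h1 : Function.Surjective (Scheme.stalkClosedPointTo (γ ≫ pullback.fst π σ)) := by
      rw [hγ]
      erw [Scheme.stalkClosedPointTo_fromSpecStalk]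
      exact (ConcreteCategory.bijective_of_isIso _).2
    rw [Scheme.stalkClosedPointTo_comp] at h1
    exact Function.Surjective.of_comp h1
  let δ := γ.toNormalization
  let f := γ.fromNormalization ≫ pullback.fst π σ
  have hf : δ ≫ f = X.fromSpecStalk (genericPoint X) := by
    rw [Scheme.Hom.toNormalization_fromNormalization_assoc, hγ]
  have : IsDominant f := have : IsDominant (δ ≫ f) := hf ▸ inferInstance; .of_comp δ f
  have he := emb_pullFun δ f hf
  have hbij : Function.Bijective (pullFun f) := ⟨(pullFun f).hom.injective, fun g =>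
    ⟨emb δ g, (emb δ).injective (he _)⟩⟩
  have hv : ValuativeCriterion.Existence γ.fromNormalization :=
    (UniversallyClosed.eq_valuativeCriterion ▸ (inferInstance :
      UniversallyClosed γ.fromNormalization)).1
  obtain ⟨l, hl₁, hl₂⟩ := (hv ⟨O, X.functionField, δ, pullback.lift ψ θ hw,
    ⟨γ.toNormalization_fromNormalization⟩⟩).exists_lift
  dsimp only at hl₁ hl₂
  have hl := emb_stalk δ l hl₁
  refine ⟨_, inferInstance, f, this, inferInstance, (ConcreteCategory.isIso_iff_bijective _).2 hbij,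
    norm_normal γ, l (closedPoint O), ?_, ?_, ?_⟩
  · refine coheight_lift p π hs hd ha f δ hf l hl₁ fun i => ?_
    let g := γ.fromNormalization ≫ pullback.snd π σ
    have hg : δ ≫ g = projPoint c _ hc hX one_pos := by
      rw [Scheme.Hom.toNormalization_fromNormalization_assoc, hγ']
    have hy : l (closedPoint O) ∈ g ⁻¹ᵁ Proj.basicOpen _ (MvPolynomial.X 0) := by
      rw [Scheme.Hom.mem_preimage, ← Scheme.Hom.comp_apply, reassoc_of% hl₂, pullback.lift_snd,
        ← Proj.opensRange_awayι _ _ hX one_pos]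
      exact ⟨_, rfl⟩
    have h5 := top_le' δ hy
    have h7 := (app_evalAt δ g _ h5).trans (evalAt_eq_of_eq _
      (Proj.isAffineOpen_basicOpen _ _ hX one_pos) _ ((Proj.basicOpenIsoAway _ _ hX one_pos).inv ≫
        CommRingCat.ofHom (awayEval c _ hc)) (by
      rw [Spec.map_comp, Category.assoc, ← awayι_eq, hg]; rfl))
    obtain ⟨t, ht⟩ : a i ∈ Set.range (awayEval c _ hc) := by
      rw [hrange]
      exact Algebra.subset_adjoin ⟨i.succ, by simp [c]⟩
    refine ⟨_, reg_germ (genericPoint_mem ⟨_, hy⟩)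
      (g.app _ ((Proj.basicOpenIsoAway _ _ hX one_pos).hom t)) hy, (emb_germ _ _ _ h5 _).trans ?_⟩
    exact congr($h7 ((Proj.basicOpenIsoAway _ _ hX one_pos).hom t)).trans (by simpa using ht)
  · rw [← Scheme.Hom.comp_apply, reassoc_of% hl₂, pullback.lift_fst, Scheme.Hom.comp_apply, Spec_closedPoint,
      Scheme.fromSpecStalk_closedPoint]
  · rintro g ⟨r, hr⟩
    rw [← he g, ← hr, hl, Place.ge_zero_iff]
    exact (Scheme.stalkClosedPointTo l r).2

end Pool.Agent.Lib.PL87
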